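import Pool.Agent.K9h28.UniB

/-!
# Independence of `ℓ` of the homological equivalence, and the conjecture D for all abelian varieties
in characteristic `p` with a degeneration for which it is known

Let `W`, `W'` be two Weil cohomology theories for the varieties over the field `k` (for instance
`ℓ`-adic and `ℓ'`-adic cohomology), and `W₀`, `W₀'` the corresponding theories over the residue field of
a discrete valuation. Let `X` be a variety which degenerates (good reduction, or strictly semistable
reduction after a finite extension) to a variety such that **the conjecture D is true for all strata of
the special fibre** for `W₀` and for `W₀'` (`ReducesToD`).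

**Theorem.**
1. A cycle on `X` is homologically equivalent to zero for `W` if and only if it is for `W'`, and the
   injectivity conjecture (Tate's conjecture `I`) is true: cycles whose classes are linearly independent
   over `ℚ` have classes that are linearly independent over the field of coefficients. (So the dimension
   of the space generated by the classes of the cycles of codimension `j` does not depend on `ℓ`.)
2. If a variety `Z` is dominated by such an `X` (for instance `X = Z`, or `X` is an alteration of `Z`), and
   if the conjecture D is true for `Z` and **one** theory `W'`, then it is true for `Z` and `W`.
3. This applies, without any condition on `W`, to all abelian varieties `Z`, and their products with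
   varieties whose products satisfy the conjecture D for `W'`, if no nonzero subspace of `H^1(Z)` for the
   auxiliary theory `W'`, stable under the endomorphisms and the symmetries, is isotropic
   (`IsAnisotropic`). In the characteristic `p` there are always such theories: the `ℓ'`-adic cohomology
   for the primes `ℓ'` such that the complex conjugation fixes the places of the centre of
   `End(Z) ⊗ ℚ` above `ℓ'` (Chebotarev; the stable subspaces are known by the theorems of Tate, Zarhin
   and Faltings).
4. The conclusion is true for all varieties `V` with a cohomology which embeds by correspondences into
   the cohomology of varieties `Z` as in 2. and 3., for instance subvarieties such that the restriction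
   `H(Z) → H(V)` is surjective, and varieties dominated by `Z`.

**Consequence.** For an abelian variety `A` over **any field of characteristic `p`** and **every
prime** `ℓ ≠ p`, the conjecture D is true for `A` if it is true (for this `ℓ` and one `ℓ'`) for the abelian
part `B` of **one** semistable reduction of `A`. There is no condition on powers of `A` and `B`, as in
`FromSpecialFibre`. By `FiveAndSurfacesTimesVarieties` (with `U` a point) this is the case if `B` has
dimension at most five, or is isogenous to a product of elliptic curves and abelian surfaces. So the
conjecture D is true, for every `ℓ ≠ p`, for all abelian varieties of dimension at most five over all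
fields of characteristic `p`, for all abelian varieties of any dimension with a degeneration
whose abelian part has dimension at most five, and for all products of elliptic curves, curves of genus
two, abelian surfaces and Kummer surfaces.

Idea of the proof. By D for `W₀'` each class `x` on a stratum has, for a `ℚ`-linear form `φ` on the
coefficients with `φ 1 = 1`, a rational algebraic transform `Φ(x)` with `tr (Φ(x) b) = φ(tr (x b))` for all
cycles `b`, compatible with pull-backs and push-forwards. If the class of a cycle `z` on `X` is zero for
`W'`, then the specialization of `z` is a coboundary in the complex of Rapoport and Zink;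
`Φ` shows that it is the coboundary of rational cycles, modulo homological equivalence for `W₀'`, hence
modulo numerical equivalence; by D for `W₀` it is a coboundary for `W₀`, and the class of `z` is zero
for `W`. The conjecture D for `Z` and the auxiliary theory `W'` is used to specialize
numerically trivial cycles, which is not possible directly since the special fibre has more
cycles than the generic fibre.
-/

set_option autoImplicit false

namespace Pool.Agent.Results.MP_f569db_ag.FromOneTheoryToAll

open Pool.Agent.H914 Pool.Agent.K9h28 Pool.Agent.K9h28.Min Pool.Agent.K9h28.Uni

universe u u' v v' w w'

/-- **Independence of the theory of the homological equivalence, and the conjecture D for abelian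
varieties with a degeneration for which it is known.** -/
theorem result {k : Type u} [Field k] {𝒱 : VarClass k} {ops : CycleOps 𝒱}
    (W : WeilCohomology.{u, v} ops) (W' : WeilCohomology.{u, w} ops) (𝒢 : Set (Sym W'))
    (𝒴 : Set 𝒱.Obj) (h𝒴 : ∀ Y, IsProductOf 𝒴 Y → HomEqNum W' Y)
    {k₀ : Type u'} [Field k₀] {𝒱₀ : VarClass k₀} {ops₀ : CycleOps 𝒱₀}
    (W₀ : WeilCohomology.{u', v'} ops₀) (W₀' : WeilCohomology.{u', w'} ops₀)
    (σ : W.K →+* W₀.K) (σ' : W'.K →+* W₀'.K) :
    (∀ X, ReducesToD W W' W₀ W₀' σ σ' X → InjectivityConj W X ∧
      ∀ j z, X.IsCyc j z → (W.cl X z = 0 ↔ W'.cl X z = 0)) ∧
    ∀ R : Set 𝒱.Obj, (∀ Z ∈ R,
      (HomEqNum W' Z ∨ IsProductOf ({A | IsAnisotropic W' 𝒢 A} ∪ 𝒴) Z) ∧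
        ∃ X, Min.Dominates W X Z ∧ ReducesToD W W' W₀ W₀' σ σ' X) →
      ∀ V, EmbedsIn W R V → HomEqNum W V :=
  ⟨fun _ hX => ⟨hX.injectivityMin, fun _ _ hz => hX.cl_zero hz⟩, fun _ hR _ hV => main h𝒴 hR hV⟩

end Pool.Agent.Results.MP_f569db_ag.FromOneTheoryToAll
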