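import Pool.Agent.K9h28.MinA

/-!
# The conjecture D for abelian varieties follows from the injectivity conjecture, and from the
conjecture D for the special fibre

Let `W` be a Weil cohomology theory with any field of coefficients `K` (for instance `ℚ_ℓ`), `P` a set of
abelian varieties and `𝒴` a set of varieties such that the conjecture D is true for all products of
members of `𝒴` (for instance only a point).

**Theorem.** Suppose that every product `Z` of members of `P` and `𝒴` is dominated by a variety `X` (for
instance `Z`, or an alteration of `Z`) which has one of the following properties:

* the injectivity conjecture (Tate's conjecture `I`) holds for `X`: cycles with classes which are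
  linearly independent over `ℚ` have classes which are linearly independent over `K`;
* `X` degenerates (for a discrete valuation of the ground field, after a finite extension; good
  reduction or strictly semistable reduction) to a variety such that **the conjecture D is true for
  all strata of the special fibre**.

Then **homological and numerical equivalence coincide** for all these products `Z` and for all varieties
which are dominated by them, and these varieties satisfy the conjecture B (for the divisors for which
hard Lefschetz is true).

So the conjectures D and I are equivalent for abelian varieties (and their products with `𝒴`), and the
conjecture D for abelian varieties over all fields of characteristic `p` and `ℓ`-adic cohomology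
follows from the same conjecture (same `ℓ`) for abelian varieties over an algebraic closure of `𝔽_p`; it is
enough to know it for the powers of one good reduction `A₀` of `A`, or of the abelian part of a
semistable reduction.

There is no assumption on the positivity of forms. If the conjecture of Hodge type is true for the
special fibre, then there is the classical argument (cycles on `X` are specialized, and a definite form
is non-degenerate on each subspace); in positive characteristic it is not known for the powers of
abelian varieties. Without it the conjecture D for `X₀` gives no direct information on
the numerical equivalence on `X`, since `X₀` has more cycles than `X`.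

Idea of the proof. Suppose that there is a numerically trivial class which is not zero. Kempf's theory of
optimal one-parameter subgroups gives a canonical weight filtration on `H^1(A)`. It is stable under the
endomorphisms and the symmetries, so after an extension of scalars it is given by real
weights `w(λ)` for the embeddings `λ` of the centre of `End(A) ⊗ ℚ`; the numerically trivial classes have only
components of positive weight, and `w(λ̄) = -w(λ)` by the polarization. If the injectivity conjecture is true,
then a cycle with rational coefficients acts on the classes of cycles as over `ℚ`, which implies that the set
of the weights `(λ_1, …, λ_n)` with a nonzero component of a numerically trivial class is stable under the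
complex conjugation: contradiction. For the second case, let `φ` be a `ℚ`-linear functional on the
coefficient field. If D is true for the strata, then each class `x` on a stratum has a rational algebraic
transform `Φ(x)` with `tr (Φ(x) b) = φ(tr (x b))` for all cycles `b`; this operation commutes with
pull-backs and push-forwards. So it maps the relations in the weight spectral sequence
between the specializations of cycles on `X` to relations with rational coefficients, and the
injectivity conjecture holds for `X`.
-/

set_option autoImplicit false

namespace Pool.Agent.Results.MP_f569db_ag.FromSpecialFibre

open Pool.Agent.H914 Pool.Agent.K9h28 Pool.Agent.K9h28.Min

universe u u' v v'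

/-- **The conjecture D for abelian varieties follows from the injectivity conjecture or from the
conjecture D for special fibres.** -/
theorem result {k : Type u} [Field k] {𝒱 : VarClass k} {ops : CycleOps 𝒱}
    (W : WeilCohomology.{u, v} ops) (𝒢 : Set (Sym W)) (P 𝒴 : Set 𝒱.Obj)
    (hP : ∀ A ∈ P, IsAbelian W 𝒢 A) (h𝒴 : ∀ Y, IsProductOf 𝒴 Y → HomEqNum W Y)
    {k₀ : Type u'} [Field k₀] {𝒱₀ : VarClass k₀} {ops₀ : CycleOps 𝒱₀}
    (W₀ : WeilCohomology.{u', v'} ops₀) (σ : W.K →+* W₀.K)
    (h : ∀ Z, IsProductOf (P ∪ 𝒴) Z → ∃ X, Min.Dominates W X Z ∧ (InjectivityConj W X ∨
      ∃ (T : Strata 𝒱₀) (sp : ∀ s, X.Cycles → (T.Y s).Cycles),
        Min.SpecializesTo W X W₀ σ T sp ∧ ∀ s, HomEqNum W₀ (T.Y s))) :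
    ∀ Z, IsProductOf (P ∪ 𝒴) Z → ∀ V, Min.Dominates W Z V → HomEqNum W V ∧ SatisfiesB W V :=
  main hP h𝒴 h

end Pool.Agent.Results.MP_f569db_ag.FromSpecialFibre
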