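import Pool.Agent.K9h28.GnG

/-!
# The standard conjectures of Hodge type and D for varieties with strictly semistable reduction

Let `X` be the geometric generic fibre of a projective strictly semistable scheme over a discrete
valuation ring (of any characteristic), `D` the divisor of a relatively ample line bundle. The
special fibre is the union of smooth components `Y_1, ..., Y_N`; the strata are the connected
components of their intersections. The theory of Rapoport, Zink and Steenbrink gives the structure
used here: the complex of the strata with the restriction maps and the Gysin maps, and the description
of the classes of the cycles on `X` by their specializations to the components, which holds since by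
the weights a cycle is homologically equivalent to zero if and only if its specialization is zero in
the term `E_2` of the spectral sequence.

**Theorem.** Suppose that the conjecture of Hodge type and one of the conjectures A, B, D are true for
all the strata. Then the conjecture of Hodge type is true for `X`; if the conjecture A (or B) is true for
`X`, then **homological and numerical equivalence coincide on `X`** and on all varieties dominated by `X`.

For good reduction (one stratum) this is the classical specialization argument. In general the
strata are usually much simpler than `X`: for example if the reduction is totally degenerate they are
rational, and their cohomology is generated by the classes of the strata or of exceptional divisors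
(toric varieties, the iterated blow-ups of projective spaces which occur for the varieties uniformized
by the Drinfeld spaces, the components of the degenerations of type III of K3 surfaces and of the
powers of such K3 surfaces).

Idea of the proof: on the complex of the algebraic classes on the strata there are two commuting
actions of `SL(2)`, given by the divisor and by the monodromy. The conjecture of Hodge type for the strata
gives a positive definite form, for which the adjoint of the differential `d` is `-[Λ, [M, d]]`, where `Λ`
and `M` are the lowering operators. So the Laplace operator commutes with the two raising operators, and
the harmonic representative of a primitive class is primitive and invariant under the monodromy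
`SL(2)`. (In characteristic zero this is the method of Guillén and Navarro Aznar for the polarization of the
limit mixed Hodge structure; here only the algebraic classes are used, and no Hodge theory is needed.)
-/

set_option autoImplicit false

namespace Pool.Agent.Results.MP_f569db_ag.SemistableReduction

open Pool.Agent.H914 Pool.Agent.K9h28

universe u u' v v'

/-- **The conjecture of Hodge type and the conjecture D for varieties with strictly semistable
reduction.** -/
theorem result {k : Type u} [Field k] {𝒱 : VarClass k} {ops : CycleOps 𝒱}
    (W : WeilCohomology.{u, v} ops) (X : 𝒱.Obj) (D : X.Cycles) (hD : X.IsCyc 1 D)
    {k₀ : Type u'} [Field k₀] {𝒱₀ : VarClass k₀} {ops₀ : CycleOps 𝒱₀}
    (W₀ : WeilCohomology.{u', v'} ops₀) (T : Strata 𝒱₀) (hT : T.IsSemistable W₀ X.dim)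
    (sp : ∀ s, X.Cycles → (T.Y s).Cycles) (hsp : IsSpecialization W X D W₀ T sp)
    (hA : ∀ s, SatisfiesA W₀ (T.Y s) (T.D s)) (hH : ∀ s, HodgeType W₀ (T.Y s) (T.D s)) :
    HodgeType W X D ∧ (LefschetzA W X D ∨ IsLefschetz W X D →
      HomEqNum W X ∧ ∀ Y, Dominates W X Y → HomEqNum W Y) :=
  semistable_final hT hD hsp hA hH

end Pool.Agent.Results.MP_f569db_ag.SemistableReduction
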