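import Pool.Agent.K9h28.TorFinal

/-!
# The standard conjecture D for varieties with a toric degeneration

Let `A` be an abelian variety over an algebraic closure of a field with a discrete valuation (of any
residue characteristic), with split semistable reduction: the reduction is an extension of an abelian
variety `B₀` over the residue field by a torus of rank `t`. Let `Z` be a smooth projective variety with
good reduction `Z₀` (for example a point) and `X = A × Z`, `X₀ = B₀ × Z₀`. The theory of Raynaud and Mumford
gives on the cohomology of `X` (`ℓ`-adic cohomology, for any `ℓ` different from the residue
characteristic) the structure `ToricDegeneration`: classes `e_i` (weight 0) and `f_i` (weight 2) in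
`H^1(A)`, `1 ≤ i ≤ t`, with `N f_i = e_i` for the monodromy operator `N`, and a homomorphism `ι` from
`H(X₀)` to `H(X)` (the part of weight one of `H^1(A)` is `H^1(B₀)`). An ample divisor `D` has the class
`∑ d_i e_i f_i + ι(cl(D₀))` with positive rational numbers `d_i`, in suitable rational bases: the form given
by the monodromy pairing and the polarization is positive definite. The specialization of cycles (on
the models of Mumford and Künnemann, whose strata are toric bundles over `B₀`) shows that the class of
a cycle of codimension `r` is a sum of products `e_I f_J ι(cl(c))` where `I` and `J` have the same number
`j` of elements and `c` is a cycle of codimension `r - j` with rational coefficients on `X₀`.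

**Theorem.** Suppose that the conjecture B and the conjecture of Hodge type are true for `X₀`. Then the
conjecture of Hodge type is true for `X`; if the conjecture B is true for `X` then **homological and
numerical equivalence coincide on `X`**, and on all varieties dominated by `X`.

The conjecture B is true for abelian varieties (Lieberman; this is also proved here, in the file
`K9h28/Lieb.lean`, under the second alternative of `IsLefschetz`). The conjecture of Hodge type is clear if
`dim X₀ ≤ 1`, and it is the Hodge index theorem if `dim X₀ ≤ 3`. So the theorem gives D, for all `ℓ`, for
the abelian varieties of dimension `g` over fields of positive characteristic with reduction of toric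
rank at least `g - 3` at some place: for example for all abelian varieties with totally degenerate
reduction (and for their products if the place is the same), in all codimensions, although the
algebraic classes on them are not known and need not be generated by divisors.

Idea of the proof: the class `z` of a cycle is invariant under `N` and has the weight of an invariant of the
corresponding action of `SL(2)`. So it is fixed by the Weyl element of this group, which exchanges `e_i` and
`f_i` up to the sign. Together with the Weyl element of the Lefschetz action of `SL(2)` for `D` this shows
that `(-1)^r tr(z · w(z))` is a sum of positive multiples of the corresponding values for the classes `c` on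
`X₀`.
-/

set_option autoImplicit false

namespace Pool.Agent.Results.MP_f569db_ag.ToricDegenerations

open Pool.Agent.H914 Pool.Agent.K9h28

universe u u' v v'

/-- **The conjecture of Hodge type and the conjecture D for varieties with a toric degeneration.** -/
theorem result {k : Type u} [Field k] {𝒱 : VarClass k} {ops : CycleOps 𝒱}
    (W : WeilCohomology.{u, v} ops) (X : 𝒱.Obj) (D : X.Cycles) (hD : X.IsCyc 1 D)
    {k₀ : Type u'} [Field k₀] {𝒱₀ : VarClass k₀} {ops₀ : CycleOps 𝒱₀}
    (W₀ : WeilCohomology.{u', v'} ops₀) (X₀ : 𝒱₀.Obj) (D₀ : X₀.Cycles) (hD₀ : X₀.IsCyc 1 D₀)
    (t : ℕ) (T : TorData W₀.K (W₀.H X₀) W.K (W.H X) t)
    (hT : ToricDegeneration W X D W₀ X₀ D₀ t T)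
    (h₀ : IsLefschetz W₀ X₀ D₀) (hH₀ : HodgeType W₀ X₀ D₀) :
    HodgeType W X D ∧ (IsLefschetz W X D →
      HomEqNum W X ∧ ∀ Y, Dominates W X Y → HomEqNum W Y) :=
  hT.final hD hD₀ h₀ hH₀

end Pool.Agent.Results.MP_f569db_ag.ToricDegenerations
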